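import Pool.Agent.Q88.MT.Stm
import Pool.Agent.Q88.MT.Stm2
import Pool.Agent.Q88.MT.Stm3
import Pool.Agent.Q103.MT_BAS
import Pool.Agent.Q164.MT_BDD
import Pool.Agent.Q164.MT_INV
import Pool.Agent.Q194.MT_BOX
import Pool.Agent.Q76.MT_BAN
import Pool.Agent.Q142.MT_OUT
import Pool.Agent.Q90.MT_HCO
import Pool.Agent.Q93.MT_GRO
import Pool.Agent.Q142.MT_ZER
import Pool.Agent.Q162.MT_DIS
import Pool.Agent.Q217.MT_ADJ
import Pool.Agent.Q90.MT_FIN
import Pool.Agent.Q214.MT.Rea
import Pool.Agent.Q222.MT_COE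
import Pool.Agent.Q79.MT_SAD
import Pool.Agent.Q285.MT_FOG
import Pool.Agent.Q178.MT_CON
import Pool.Agent.Q121.MT_HUL

/-!
# Norms and spectra of symmetric and antisymmetric tensor products of powers of the shift

The Hilbert space tensor power `H^(⊗ n)` of `H = ℓ²` is `ℓ²(ℕ^n)` (basis `e_x = e_(x 1) ⊗ … ⊗ e_(x n)`).
For integers `k 1, …, k n` let `A_i = S^(k i)`, where `S^(-m)` means `(S*)^m`. Results, for the symmetric and
the antisymmetric product alike: the norm is `1`; the spectrum contains the range of the symbol and is contained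
in its closed convex hull; if `∑ k i ≠ 0` the spectrum is the closed unit disc; if the family of the exponents
is symmetric (`k ∘ τ = -k` for a permutation `τ`) it is the interval `[μ, 1]`, `μ` the minimum of the symbol.

Idea for the disc: for `K = ∑ k i > 0` the operator raises the degree by `K`, so the resolvent at `l` acts on
homogeneous elements by the series `- ∑ T^m v / l^(m+1)` with orthogonal terms; a bounded resolvent gives
`‖T^m‖ ≤ C ‖l‖^m`, and the spectral radius is `1`.
-/

set_option autoImplicit false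

open Set Filter Topology

noncomputable section

namespace Pool.Agent.Results.MP_0b6044_an.ShiftTensorProducts

/-- Indices of the orthonormal basis of the tensor power. -/
abbrev X (n : ℕ) := Fin n → ℕ

/-- `u` is square summable. -/
def Sq {n : ℕ} (u : X n → ℂ) : Prop := Summable fun x => ‖u x‖ ^ 2

/-- The Hilbert space norm. -/
def nn {n : ℕ} (u : X n → ℂ) : ℝ := Real.sqrt (∑' x, ‖u x‖ ^ 2)

/-- The unilateral shift `S e_i = e_(i+1)` on sequences. -/
def shift (v : ℕ → ℂ) : ℕ → ℂ
  | 0 => 0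
  | i + 1 => v i

/-- The adjoint `S*` of the shift. -/
def coshift (v : ℕ → ℂ) (i : ℕ) : ℂ := v (i + 1)

/-- `S ^ k` for `k ≥ 0` and `(S*) ^ (-k)` for `k < 0`. -/
def pw (k : ℤ) : (ℕ → ℂ) → ℕ → ℂ := if 0 ≤ k then shift^[k.toNat] else coshift^[(-k).toNat]

/-- The tensor product of the operators `S^(k 1), …, S^(k n)`: `(W k u) (y) = u (y - k)`, and `0` if `y - k` has a
negative coordinate. -/
def W {n : ℕ} (k : Fin n → ℤ) (u : X n → ℂ) (y : X n) : ℂ :=
  if ∀ j, 0 ≤ (y j : ℤ) - k j then u (fun j => ((y j : ℤ) - k j).toNat) else 0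

/-- The average of the tensor products over all permutations. -/
def T {n : ℕ} (k : Fin n → ℤ) (u : X n → ℂ) (y : X n) : ℂ :=
  1 / (n.factorial : ℂ) * ∑ π : Equiv.Perm (Fin n), W (fun j => k (π j)) u y

/-- The trivial character (`b = false`) or the sign (`b = true`). -/
def chi {n : ℕ} (b : Bool) (π : Equiv.Perm (Fin n)) : ℂ :=
  if b then ((Equiv.Perm.sign π : ℤ) : ℂ) else 1

/-- The symmetric (`b = false`) or antisymmetric (`b = true`) subspace of the tensor power. -/
def M (n : ℕ) (b : Bool) : Set (X n → ℂ) :=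
  {u | Sq u ∧ ∀ (π : Equiv.Perm (Fin n)) (x : X n), u (fun j => x (π j)) = chi b π * u x}

/-- The spectrum of the restriction of `T k` to the subspace `M n b`: all `l` such that `T k - l` is not a
bijection of `M n b`. -/
def Sp {n : ℕ} (b : Bool) (k : Fin n → ℤ) : Set ℂ :=
  {l | ¬ ∀ v ∈ M n b, ∃! u : X n → ℂ, u ∈ M n b ∧ (fun y => T k u y - l * u y) = v}

/-- The symbol: the average of `exp (i (t_1 k (π 1) + … + t_n k (π n)))` over all permutations `π`. -/
def sy {n : ℕ} (k : Fin n → ℤ) (t : Fin n → ℝ) : ℂ :=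
  1 / (n.factorial : ℂ) *
    ∑ π : Equiv.Perm (Fin n), Complex.exp (((∑ j, t j * (k (π j) : ℝ) : ℝ) : ℂ) * Complex.I)

/-- The infimum of the real part of the symbol. -/
def mu {n : ℕ} (k : Fin n → ℤ) : ℝ := sInf (range fun t : Fin n → ℝ => (sy k t).re)

theorem shift_iter (m : ℕ) (v : ℕ → ℂ) (i : ℕ) :
    shift^[m] v i = if m ≤ i then v (i - m) else 0 := by
  induction m generalizing v with
  | zero => simp
  | succ m ih =>
    rw [Function.iterate_succ_apply, ih]
    by_cases h : m ≤ i
    · rw [if_pos h]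
      rcases Nat.eq_or_lt_of_le h with h1 | h1
      · subst h1; simp [shift]
      · rw [if_pos (by omega)]
        have : i - m = (i - (m + 1)) + 1 := by omega
        rw [this]; rfl
    · rw [if_neg h, if_neg (by omega)]

theorem coshift_iter (m : ℕ) (v : ℕ → ℂ) (i : ℕ) : coshift^[m] v i = v (i + m) := by
  induction m generalizing v with
  | zero => simp
  | succ m ih =>
    rw [Function.iterate_succ_apply, ih]
    unfold coshift
    congr 1

theorem pw_apply (k : ℤ) (v : ℕ → ℂ) (i : ℕ) :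
    pw k v i = if 0 ≤ (i : ℤ) - k then v ((i : ℤ) - k).toNat else 0 := by
  unfold pw
  by_cases hk : 0 ≤ k
  · rw [if_pos hk, shift_iter]
    obtain ⟨m, rfl⟩ := Int.eq_ofNat_of_zero_le hk
    by_cases h : m ≤ i
    · rw [if_pos (by simpa using h), if_pos (by omega)]
      congr 1; omega
    · rw [if_neg (by simpa using h), if_neg (by omega)]
  · rw [if_neg hk, coshift_iter, if_pos (by omega)]
    congr 1; omega

theorem W_tensor {n : ℕ} (k : Fin n → ℤ) (v : Fin n → ℕ → ℂ) :
    W k (fun x => ∏ j, v j (x j)) = fun y => ∏ j, pw (k j) (v j) (y j) := by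
  funext y
  unfold W
  by_cases h : ∀ j, 0 ≤ (y j : ℤ) - k j
  · rw [if_pos h]
    refine Finset.prod_congr rfl fun j _ => ?_
    rw [pw_apply, if_pos (h j)]
  · rw [if_neg h]
    rw [not_forall] at h
    obtain ⟨j, hj⟩ := h
    symm
    apply Finset.prod_eq_zero (Finset.mem_univ j)
    rw [pw_apply, if_neg (by omega)]

theorem fou_of (h3 : Pool.Agent.Q88.MT.S_fog) (h2 : Pool.Agent.Q88.MT.S_rea) :
    Pool.Agent.Q88.MT.S_fou := by
  intro n k τ hk u hu
  obtain ⟨hr, -, -⟩ := h2 n k τ hk
  have h1 := h3 n k (-1) (-(Pool.Agent.Q88.MT.mu k)) (fun t => by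
    have := (hr t).2
    simpa using this) u hu
  refine ⟨h1.1, ?_, ?_⟩
  · have a := (h3 n k Complex.I 0 (fun t => by simp [(hr t).1]) u hu).2
    have b := (h3 n k (-Complex.I) 0 (fun t => by simp [(hr t).1]) u hu).2
    simp only [Complex.mul_re, Complex.I_re, Complex.I_im, Complex.neg_re, Complex.neg_im, zero_mul] at a b
    linarith
  · have a := h1.2
    simp only [Complex.mul_re, Complex.neg_re, Complex.neg_im, Complex.one_re, Complex.one_im, neg_zero,
      zero_mul, sub_zero] at a
    linarith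

theorem main : Pool.Agent.Q88.MT.S_fin ∧ Pool.Agent.Q88.MT.S_sad ∧ Pool.Agent.Q88.MT.S_hul := by
  have bas := Pool.Agent.Q103.MT.bas
  have bdd := Pool.Agent.Q164.MT.bdd bas
  have inv := Pool.Agent.Q164.MT.inv bas bdd
  have box := Pool.Agent.Q194.MT_BOX.box bas
  have ban := Pool.Agent.Q76.MTB.ban bas bdd inv
  have out := Pool.Agent.Q142.MTO.out bas bdd inv
  have hco := Pool.Agent.Q90.MTH.hco bas inv
  have gro := Pool.Agent.Q93.MTGRO.gro bas bdd inv ban hco
  have zer := Pool.Agent.Q142.MTZ.zer hco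
  have dis := Pool.Agent.Q162.MT.dis bas bdd inv box gro zer
  have adj := Pool.Agent.Q88.MT.adj bas bdd inv
  have fin := Pool.Agent.Q90.MTF.fin bas bdd inv box ban out dis adj
  have rea := Pool.Agent.Q214.MT.rea
  have fog := Pool.Agent.Q285.MT.fog bas bdd
  have fou : Pool.Agent.Q88.MT.S_fou := fou_of fog rea
  have coe := Pool.Agent.Q222.MT_COE.coe bas bdd inv fou
  have sad := Pool.Agent.Q88.MT.sad rea coe fin
  have con := Pool.Agent.Q178.MTCON.con bas bdd inv fog
  exact ⟨fin, sad, Pool.Agent.Q121.MT.hul con⟩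

/-- **Theorem.** Let `k : Fin n → ℤ` and `b` a Boolean (`false`: symmetric, `true`: antisymmetric subspace).
(0) `W k` is the tensor product of the powers of the shift on elementary tensors.
(1), (2) the restriction of `T k` to `M n b` has norm `1`.
(3), (4) its spectrum contains the range of the symbol and is contained in its closed convex hull.
(5) If the sum of the exponents is not zero, the spectrum is the closed unit disc.
(6) If `k ∘ τ = -k` for a permutation `τ`, the spectrum is the real interval `[mu k, 1]`. -/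
theorem result (n : ℕ) (k : Fin n → ℤ) (b : Bool) :
    (∀ v : Fin n → ℕ → ℂ, W k (fun x => ∏ j, v j (x j)) = fun y => ∏ j, pw (k j) (v j) (y j)) ∧
    (∀ u ∈ M n b, nn (T k u) ≤ nn u) ∧
    (∀ c : ℝ, c < 1 → ∃ u ∈ M n b, 0 < nn u ∧ c * nn u < nn (T k u)) ∧
    (∀ t : Fin n → ℝ, sy k t ∈ Sp b k) ∧
    Sp b k ⊆ closure (convexHull ℝ (range (sy k))) ∧
    (∑ j, k j ≠ 0 → Sp b k = Metric.closedBall (0 : ℂ) 1) ∧
    (∀ τ : Equiv.Perm (Fin n), (∀ j, k (τ j) = - k j) →
      Sp b k = (fun x : ℝ => (x : ℂ)) '' Icc (mu k) 1) := by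
  obtain ⟨h1, h2, h3⟩ := main
  obtain ⟨a1, a2, a3, _, a5⟩ := h1 n k b
  exact ⟨W_tensor k, a1, a2, a3, h3 n k b, a5, fun τ hτ => h2 n k τ b hτ⟩

end Pool.Agent.Results.MP_0b6044_an.ShiftTensorProducts
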